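import Mathlib

namespace Pool.Agent.Results.MP_a3bfba_gt.ComplexNorm

open Set

/-- Real affine `m`-space. -/
abbrev E (m : ℕ) := EuclideanSpace ℝ (Fin m)

/-- `d` makes the whole of `ℝ^m` a projective-metric space of straight type: a metric inducing
the usual topology whose triangle equality holds exactly on segments. -/
structure Straight {m : ℕ} (d : E m → E m → ℝ) : Prop where
  eq_zero : ∀ x y, d x y = 0 ↔ x = y
  symm : ∀ x y, d x y = d y x
  tri : ∀ x y z, d x z ≤ d x y + d y z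
  top : ∀ U : Set (E m), IsOpen U ↔ ∀ x ∈ U, ∃ ε > 0, ∀ y, d x y < ε → y ∈ U
  seg : ∀ x y z, x ≠ y → y ≠ z → x ≠ z → (d x y + d y z = d x z ↔ y ∈ openSegment ℝ x z)

/-- Any two distinct points are adjacent vertices of a regular `n`-gon, for every `n ≥ 3`. -/
def RegPoly {m : ℕ} (d : E m → E m → ℝ) : Prop :=
  ∀ n : ℕ, 3 ≤ n → ∀ A B, A ≠ B → ∃ P : ZMod n → E m, Function.Injective P ∧
    (∀ i j h, d (P i) (P j) = d (P (i + h)) (P (j + h))) ∧ P 0 = A ∧ P 1 = B

/-- Lorentz form on `ℝ × ℝ^m`. -/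
noncomputable def lor {m : ℕ} (x y : ℝ × E m) : ℝ := x.1 * y.1 - inner ℝ x.2 y.2

/-- Isometric to hyperbolic `m`-space of curvature `-k` (hyperboloid model). -/
def Hyperbolic {m : ℕ} (d : E m → E m → ℝ) : Prop :=
  ∃ k > (0 : ℝ), ∃ φ : E m → ℝ × E m, BijOn φ univ {x | lor x x = 1 ∧ 0 < x.1} ∧
    ∀ x y, Real.cosh (√k * d x y) = lor (φ x) (φ y)

/-- Isometric to Euclidean `m`-space. -/
def Euclidean {m : ℕ} (d : E m → E m → ℝ) : Prop :=
  ∃ φ : E m → E m, Function.Bijective φ ∧ ∀ x y, dist (φ x) (φ y) = d x y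

noncomputable def p (v : E 4) : ℂ := ⟨v 0, v 1⟩
noncomputable def N (v : E 4) : ℝ := ‖v‖ + ‖p v‖
/-- multiplication by the complex number `c` -/
noncomputable def J (c : ℂ) (v : E 4) : E 4 :=
  !₂[c.re * v 0 - c.im * v 1, c.re * v 1 + c.im * v 0, c.re * v 2 - c.im * v 3, c.re * v 3 + c.im * v 2]

lemma p_add (u v : E 4) : p (u + v) = p u + p v := by simp [p, Complex.ext_iff]
lemma p_smul (t : ℝ) (v : E 4) : p (t • v) = t • p v := by simp [p, Complex.ext_iff]
lemma p_neg (v : E 4) : p (-v) = -p v := by simp [p, Complex.ext_iff]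
lemma N_smul (t : ℝ) (v : E 4) : N (t • v) = |t| * N v := by
  simp [N, p_smul, norm_smul, mul_add]
lemma p_le (v : E 4) : ‖p v‖ ≤ ‖v‖ := by
  rw [Complex.norm_eq_sqrt_sq_add_sq, EuclideanSpace.norm_eq]
  refine Real.sqrt_le_sqrt ?_
  simp [p, Fin.sum_univ_four]; nlinarith [sq_nonneg (v 2), sq_nonneg (v 3)]
lemma N_J (c : ℂ) (v : E 4) : N (J c v) = ‖c‖ * N v := by
  have h1 : p (J c v) = c * p v := by simp [p, J, Complex.ext_iff]
  have h2 : ‖J c v‖ = ‖c‖ * ‖v‖ := by
    rw [← sq_eq_sq₀ (by positivity) (by positivity), mul_pow, EuclideanSpace.norm_sq_eq,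
      EuclideanSpace.norm_sq_eq, Complex.sq_norm, Complex.normSq_apply]
    simp [J, Fin.sum_univ_four]; ring
  simp [N, h1, h2, mul_add]
lemma J_sub (a b : ℂ) (v : E 4) : J a v - J b v = J (a - b) v := by
  ext i; fin_cases i <;> simp [J] <;> ring
lemma J_one (v : E 4) : J 1 v = v := by ext i; fin_cases i <;> simp [J]
lemma J_zero (v : E 4) : J 0 v = 0 := by ext i; fin_cases i <;> simp [J]

lemma mid {m : ℕ} {a b c x : ℝ × E m} {t : ℝ} (ha : lor a a = 1) (hb : lor b b = 1)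
    (hc : lor c c = 1) (h1 : lor a b = t) (h2 : lor c b = t) (h3 : lor a c = 2 * t ^ 2 - 1) :
    lor a x + lor c x = 2 * t * lor b x := by
  let v := a + c - (2 * t) • b
  have e1 : lor v b = 0 := by
    simp only [lor, v] at *
    simp [inner_sub_left, inner_add_left, inner_smul_left, -inner_self_eq_norm_sq_to_K]
    linear_combination h1 + h2 - 2 * t * hb
  have e2 : lor v v = 0 := by
    simp only [lor, v] at *
    simp [inner_sub_left, inner_add_left, inner_smul_left, inner_sub_right, inner_add_right,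
      inner_smul_right, real_inner_comm a.2 c.2, real_inner_comm a.2 b.2, real_inner_comm c.2 b.2,
      -inner_self_eq_norm_sq_to_K]
    linear_combination ha + hc + 2 * h3 - 4 * t * h1 - 4 * t * h2 + 4 * t ^ 2 * hb
  have e3 : v.2 = 0 := by
    have cs := real_inner_mul_inner_self_le v.2 b.2
    simp only [lor] at e1 e2 hb
    have : inner ℝ v.2 v.2 ≤ 0 := by
      rw [← sub_eq_zero.1 e1, ← sub_eq_zero.1 e2, show inner ℝ b.2 b.2 = b.1 * b.1 - 1 by linarith] at cs
      nlinarith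
    exact inner_self_eq_zero.1 (this.antisymm real_inner_self_nonneg)
  have e4 : v.1 = 0 := by simpa [lor, e3] using e2
  have : lor v x = 0 := by simp [lor, e3, e4]
  simp only [lor, v] at *
  simp [inner_sub_left, inner_add_left, inner_smul_left] at this
  linear_combination this

theorem result : ∃ d : E 4 → E 4 → ℝ, Straight d ∧ RegPoly d ∧ ¬ Euclidean d ∧ ¬ Hyperbolic d := by
  have np : ∀ v, v ≠ 0 → 0 < N v := fun v h => add_pos_of_pos_of_nonneg (norm_pos_iff.2 h) (norm_nonneg _)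
  refine ⟨fun x y => N (y - x), ⟨fun x y => ⟨fun h => ?_, fun h => ?_⟩, fun x y => ?_,
    fun x y z => ?_, fun U => ?_, fun x y z _ _ _ => ⟨fun h => ?_, ?_⟩⟩, fun n hn A B hAB => ?_, ?_, ?_⟩
  · by_contra hn
    exact (np _ (sub_ne_zero.2 (Ne.symm hn))).ne' h
  · simpa [h] using N_smul 0 0
  · simpa using N_smul (-1) (x - y)
  · have := norm_add_le (y - x) (z - y)
    have h2 := norm_add_le (p (y - x)) (p (z - y))
    rw [← p_add] at h2
    simp only [N, show y - x + (z - y) = z - x by abel] at *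
    linarith
  · rw [Metric.isOpen_iff]
    refine forall₂_congr fun x _ => ⟨fun ⟨e, h1, h2⟩ => ⟨e, h1, fun y h => h2 ?_⟩,
      fun ⟨e, h1, h2⟩ => ⟨e / 2, by positivity, fun y h => h2 y ?_⟩⟩
    · rw [mem_ball_iff_norm]; exact (le_add_of_nonneg_right (norm_nonneg _)).trans_lt h
    · rw [mem_ball_iff_norm] at h; simp only [N]; linarith [p_le (y - x)]
  · have := norm_add_le (y - x) (z - y)
    have h2 := norm_add_le (p (y - x)) (p (z - y))
    rw [← p_add] at h2
    simp only [N, show y - x + (z - y) = z - x by abel] at *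
    have h3 : dist x y + dist y z = dist x z := by simp only [dist_eq_norm']; linarith
    exact mem_openSegment_of_ne_left_right ‹_› (Ne.symm ‹_›) (mem_segment_iff_wbtw.2
      (dist_add_dist_eq_iff.1 h3))
  · rw [openSegment_eq_image']
    rintro ⟨t, ⟨t0, t1⟩, rfl⟩
    simp only []
    rw [add_sub_cancel_left, show z - (x + t • (z - x)) = (1 - t) • (z - x) by module, N_smul, N_smul,
      abs_of_pos t0, abs_of_pos (sub_pos.2 t1)]
    ring
  · have : NeZero n := ⟨by omega⟩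
    have : Fact (1 < n) := ⟨by omega⟩
    let χ : ZMod n → ℂ := fun i => ZMod.stdAddChar i
    have ci : Function.Injective χ := ZMod.injective_stdAddChar
    have c0 : χ 0 = 1 := by simp [χ]
    have c1 : χ 1 - 1 ≠ 0 := sub_ne_zero.2 fun h => one_ne_zero (ci (h.trans c0.symm))
    have key : ∀ i j, N (A + J ((χ j - 1) / (χ 1 - 1)) (B - A) - (A + J ((χ i - 1) / (χ 1 - 1)) (B - A))) =
        ‖χ j - χ i‖ / ‖χ 1 - 1‖ * N (B - A) := fun i j => by
      rw [add_sub_add_left_eq_sub, J_sub, N_J, ← sub_div, sub_sub_sub_cancel_right, norm_div]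
    refine ⟨fun i => A + J ((χ i - 1) / (χ 1 - 1)) (B - A), fun i j h => ?_, fun i j h => ?_, ?_, ?_⟩
    · have := key i j
      simp only [] at h
      rw [h, sub_self, show N 0 = 0 by simpa using N_smul 0 0] at this
      have h2 := (np _ (sub_ne_zero.2 hAB.symm)).ne'
      simp [h2, c1] at this
      exact ci (sub_eq_zero.1 this).symm
    · simp only [key]
      congr 2
      simp only [χ, AddChar.map_add_eq_mul, ← sub_mul, norm_mul]
      simp [ZMod.stdAddChar_apply]
    · simp [c0, J_zero]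
    · simp [div_self c1, J_one]
  · rintro ⟨φ, -, h⟩
    let e0 : E 4 := !₂[1, 0, 0, 0]
    let e2 : E 4 := !₂[0, 0, 1, 0]
    have n1 : ∀ a b : ℝ, N (a • e0 + b • e2) = √(a ^ 2 + b ^ 2) + |a| := fun a b => by
      simp [N, p, e0, e2, EuclideanSpace.norm_eq, Fin.sum_univ_four, Complex.norm_eq_sqrt_sq_add_sq,
        Real.sqrt_sq_eq_abs]
    have m : φ 0 = midpoint ℝ (φ (-e2)) (φ e2) := by
      have a1 := n1 0 1
      have a2 := n1 0 2
      refine eq_midpoint_of_dist_eq_half ?_ ?_ <;> simp only [h] <;> simp [two_smul] at a1 a2 ⊢ <;>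
        rw [a1, a2] <;> norm_num
    have := EuclideanGeometry.dist_sq_add_dist_sq_eq_two_mul_dist_midpoint_sq_add_half_dist_sq
      (φ (-(3 / 4 : ℝ) • e0)) (φ (-e2)) (φ e2)
    rw [← m] at this
    simp only [h] at this
    have s1 : √((3 / 4) ^ 2 + 1 ^ 2 : ℝ) = 5 / 4 := by
      rw [Real.sqrt_eq_iff_mul_self_eq] <;> norm_num
    rw [show -e2 - -(3 / 4 : ℝ) • e0 = (3 / 4 : ℝ) • e0 + (-1 : ℝ) • e2 by module,
      show e2 - -(3 / 4 : ℝ) • e0 = (3 / 4 : ℝ) • e0 + (1 : ℝ) • e2 by module,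
      show 0 - -(3 / 4 : ℝ) • e0 = (3 / 4 : ℝ) • e0 + (0 : ℝ) • e2 by module,
      show e2 - -e2 = (0 : ℝ) • e0 + (2 : ℝ) • e2 by module, n1, n1, n1, n1,
      show (-1 : ℝ) ^ 2 = 1 ^ 2 by norm_num, s1] at this
    norm_num [abs_of_pos] at this
  · rintro ⟨k, hk, φ, h1, h⟩
    have hk := Real.sqrt_pos.2 hk
    let v : E 4 := !₂[0, 0, Real.log 2 / √k, 0]
    have nv : √k * N v = Real.log 2 := by
      have : 0 < Real.log 2 / √k := div_pos (Real.log_pos one_lt_two) hk
      simp only [N, p, v, EuclideanSpace.norm_eq, Fin.sum_univ_four]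
      simp [-norm_div, Real.sqrt_sq this.le, Complex.norm_eq_sqrt_sq_add_sq]
      field_simp
    have k1 : ∀ a b : ℂ, ∀ n : ℕ, ‖b - a‖ = n →
        lor (φ (J a v)) (φ (J b v)) = (2 ^ n + (2 ^ n)⁻¹) / 2 := fun a b n e => by
      rw [← h]
      simp only []
      rw [J_sub, N_J, e, mul_left_comm, nv, Real.cosh_eq, Real.exp_neg, Real.exp_nat_mul,
        Real.exp_log two_pos]
    have u := fun x => (h1.mapsTo (mem_univ x)).1
    have s5 : ∀ z : ℂ, z.re ^ 2 + z.im ^ 2 = 25 → ‖z‖ = (5 : ℕ) := fun z e => by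
      rw [Complex.norm_eq_sqrt_sq_add_sq, e, Real.sqrt_eq_iff_mul_self_eq] <;> norm_num
    have := mid (x := φ (J (4 * Complex.I) v)) (u (J (-3) v)) (u (J 0 v)) (u (J 3 v))
      (k1 _ _ 3 (by simp)) (k1 _ _ 3 (by simp)) ((k1 _ _ 6 (by norm_num)).trans (by norm_num))
    rw [k1 _ _ 5 (s5 _ (by norm_num)), k1 _ _ 5 (s5 _ (by norm_num)), k1 _ _ 4 (by simp)] at this
    norm_num at this

end Pool.Agent.Results.MP_a3bfba_gt.ComplexNorm
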